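import Mathlib

set_option autoImplicit false

/-!
# Radicals of groups of exponent `a * b`

`Rad a G` is the set of the elements `e` with `e ^ a = 1` such that `(e z) ^ a = 1` for all `z` with
`z ^ a = 1`.  It is a normal subgroup.
-/

namespace Pool.Agent.W629

universe u

variable {G : Type u} [Group G]

/-- `e ^ a = 1` and `(e z) ^ a = 1` whenever `z ^ a = 1` -/
def Rad (a : ℕ) (G : Type u) [Group G] : Subgroup G where
  carrier := {e | e ^ a = 1 ∧ ∀ z, z ^ a = 1 → (e * z) ^ a = 1}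
  one_mem' := ⟨one_pow _, fun z hz => by rwa [one_mul]⟩
  mul_mem' := by
    rintro x y ⟨hx, hx'⟩ ⟨hy, hy'⟩
    refine ⟨hx' y hy, fun z hz => ?_⟩
    rw [mul_assoc]
    exact hx' _ (hy' z hz)
  inv_mem' := by
    rintro x ⟨hx, hx'⟩
    refine ⟨by rw [inv_pow, hx, inv_one], fun z hz => ?_⟩
    rcases Nat.eq_zero_or_pos a with rfl | ha
    · exact pow_zero _
    · have h : ∀ k : ℕ, (x ^ k * z) ^ a = 1 := by
        intro k
        induction k with
        | zero => simpa using hz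
        | succ k ih =>
          rw [pow_succ', mul_assoc]
          exact hx' _ ih
      have e : x⁻¹ = x ^ (a - 1) := by
        rw [inv_eq_iff_mul_eq_one, ← pow_succ', Nat.sub_add_cancel ha, hx]
      rw [e]
      exact h _

theorem mem_rad {a : ℕ} {e : G} : e ∈ Rad a G ↔ e ^ a = 1 ∧ ∀ z, z ^ a = 1 → (e * z) ^ a = 1 :=
  Iff.rfl

theorem conj_pow' (g x : G) (k : ℕ) : (g * x * g⁻¹) ^ k = g * x ^ k * g⁻¹ := conj_pow

theorem conj_pow_one {g x : G} {k : ℕ} (h : x ^ k = 1) : (g * x * g⁻¹) ^ k = 1 := by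
  rw [conj_pow, h, mul_one, mul_inv_cancel]

theorem conj_pow_one' {g x : G} {k : ℕ} (h : x ^ k = 1) : (g⁻¹ * x * g) ^ k = 1 := by
  have := conj_pow_one (g := g⁻¹) h
  rwa [inv_inv] at this

instance rad_normal (a : ℕ) : (Rad a G).Normal := by
  refine ⟨?_⟩
  rintro e ⟨h1, h2⟩ g
  refine ⟨conj_pow_one h1, fun z hz => ?_⟩
  have h3 := h2 (g⁻¹ * z * g) (conj_pow_one' hz)
  have h4 : g * e * g⁻¹ * z = g * (e * (g⁻¹ * z * g)) * g⁻¹ := by group
  rw [h4]
  exact conj_pow_one h3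

theorem rad_pow {a : ℕ} {e : G} (h : e ∈ Rad a G) : e ^ a = 1 := h.1

theorem rad_mul {a : ℕ} {e z : G} (h : e ∈ Rad a G) (hz : z ^ a = 1) : (e * z) ^ a = 1 := h.2 z hz

theorem rad_mul' {a : ℕ} {e z : G} (h : e ∈ Rad a G) (hz : z ^ a = 1) : (z * e) ^ a = 1 := by
  have h1 := rad_mul h hz
  have h2 : z * e = e⁻¹ * (e * z) * e := by group
  rw [h2]
  exact conj_pow_one' h1

/-- an element with `x ^ a = 1` and `x ^ b = 1`, `a`, `b` coprime, is trivial -/
theorem eq_one_of_coprime {a b : ℕ} (hab : Nat.Coprime a b) {x : G} (h1 : x ^ a = 1)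
    (h2 : x ^ b = 1) : x = 1 := by
  have h3 := orderOf_dvd_of_pow_eq_one h1
  have h4 := orderOf_dvd_of_pow_eq_one h2
  have h5 := Nat.dvd_gcd h3 h4
  rw [hab, Nat.dvd_one] at h5
  exact orderOf_eq_one_iff.1 h5

/-- if `x ^ (a b) = 1` and `x ^ (a ^ 2) = 1` then `x ^ a = 1` -/
theorem pow_a_of {a b : ℕ} (hab : Nat.Coprime a b) {x : G} (h : x ^ (a * b) = 1)
    (h2 : (x ^ a) ^ a = 1) : x ^ a = 1 :=
  eq_one_of_coprime hab h2 (by rw [← pow_mul, h])

theorem le_rad {a b : ℕ} (hab : Nat.Coprime a b) (hG : ∀ x : G, x ^ (a * b) = 1) (N : Subgroup G)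
    [hN : N.Normal] (h : ∀ x ∈ N, x ^ a = 1) : N ≤ Rad a G := by
  intro e he
  refine ⟨h e he, fun z hz => pow_a_of hab (hG _) (h _ ?_)⟩
  rw [← QuotientGroup.eq_one_iff, QuotientGroup.mk_pow, QuotientGroup.mk_mul,
    (QuotientGroup.eq_one_iff e).2 he, one_mul, ← QuotientGroup.mk_pow, hz]
  rfl

/-- modulo a normal subgroup of exponent dividing `a` -/
theorem pow_of_mk {a b : ℕ} (hab : Nat.Coprime a b) (hG : ∀ x : G, x ^ (a * b) = 1)
    (N : Subgroup G) [N.Normal] (h : ∀ x ∈ N, x ^ a = 1) {x : G}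
    (hx : (x : G ⧸ N) ^ a = 1) : x ^ a = 1 := by
  rw [← QuotientGroup.mk_pow, QuotientGroup.eq_one_iff] at hx
  exact pow_a_of hab (hG x) (h _ hx)

theorem rad_quot {a b : ℕ} (hab : Nat.Coprime a b) (hG : ∀ x : G, x ^ (a * b) = 1) :
    Rad a (G ⧸ Rad a G) = ⊥ := by
  rw [eq_bot_iff]
  intro e he
  obtain ⟨e, rfl⟩ := QuotientGroup.mk_surjective e
  rw [Subgroup.mem_bot, QuotientGroup.eq_one_iff]
  have hR : ∀ x ∈ Rad a G, x ^ a = 1 := fun x hx => hx.1
  refine ⟨pow_of_mk hab hG _ hR he.1, fun z hz => pow_of_mk hab hG _ hR ?_⟩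
  rw [QuotientGroup.mk_mul]
  refine he.2 _ ?_
  rw [← QuotientGroup.mk_pow, hz]
  rfl

theorem exp_quot {n : ℕ} (hG : ∀ x : G, x ^ n = 1) (N : Subgroup G) [N.Normal] (x : G ⧸ N) :
    x ^ n = 1 := by
  obtain ⟨g, rfl⟩ := QuotientGroup.mk_surjective x
  rw [← QuotientGroup.mk_pow, hG]
  rfl

theorem exp_sub {n : ℕ} (hG : ∀ x : G, x ^ n = 1) (K : Subgroup G) (x : K) : x ^ n = 1 := by
  ext
  simpa using hG x

/-- restriction to a subgroup -/
theorem rad_sub {a : ℕ} (K : Subgroup G) (x : K) (hx : (x : G) ∈ Rad a G) : x ∈ Rad a K := by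
  refine ⟨Subtype.ext (by simpa using hx.1), fun z hz => Subtype.ext ?_⟩
  have h := hx.2 z (by rw [← Subgroup.coe_pow, hz, Subgroup.coe_one])
  simpa using h

/-- commutator formula -/
theorem comm_pow {x y c : G} (h : x * y * x⁻¹ * y⁻¹ = c) (hc : Commute x c) (k : ℕ) :
    x ^ k * y * (x ^ k)⁻¹ * y⁻¹ = c ^ k := by
  induction k with
  | zero => simp
  | succ k ih =>
    have h1 : x ^ (k + 1) * y * (x ^ (k + 1))⁻¹ * y⁻¹ =
        x * (x ^ k * y * (x ^ k)⁻¹ * y⁻¹) * (y * x⁻¹ * y⁻¹) := by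
      rw [pow_succ']
      group
    rw [h1, ih]
    have h2 : x * c ^ k = c ^ k * x := (hc.pow_right k).eq
    rw [h2]
    have h3 : c ^ k * x * (y * x⁻¹ * y⁻¹) = c ^ k * (x * y * x⁻¹ * y⁻¹) := by group
    rw [h3, h, ← pow_succ]

/-- the key step of the Hall-Higman lemma -/
theorem hh_step {a b : ℕ} (hab : Nat.Coprime a b) (hG : ∀ x : G, x ^ (a * b) = 1)
    (hR : Rad a G = ⊥) (D : Subgroup G) [hD : D.Normal]
    (h1 : ∀ x ∈ D, ∀ e ∈ Rad b G, x * e = e * x) (h2 : ⁅D, D⁆ ≤ Rad b G) : D ≤ Rad b G := by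
  have key : ∀ x ∈ D, ∀ y ∈ D, x ^ a = 1 → y ^ a = 1 → x * y = y * x := by
    intro x hx y hy hxa hya
    have hc : x * y * x⁻¹ * y⁻¹ ∈ Rad b G := h2 (Subgroup.commutator_mem_commutator hx hy)
    have h3 : x * y * x⁻¹ * y⁻¹ = 1 := by
      refine eq_one_of_coprime hab ?_ hc.1
      rw [← comm_pow rfl (h1 x hx _ hc) a, hxa]
      group
    rw [mul_inv_eq_one, mul_inv_eq_iff_eq_mul] at h3
    exact h3
  let R : Subgroup G :=
    { carrier := {x | x ∈ D ∧ x ^ a = 1}
      one_mem' := ⟨one_mem _, one_pow _⟩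
      mul_mem' := by
        rintro x y ⟨hx, hx'⟩ ⟨hy, hy'⟩
        have hc : Commute x y := key x hx y hy hx' hy'
        exact ⟨mul_mem hx hy, by rw [hc.mul_pow, hx', hy', one_mul]⟩
      inv_mem' := by
        rintro x ⟨hx, hx'⟩
        exact ⟨inv_mem hx, by rw [inv_pow, hx', inv_one]⟩ }
  have hRn : R.Normal := ⟨fun x hx g => ⟨hD.conj_mem x hx.1 g, conj_pow_one hx.2⟩⟩
  have hRb : R ≤ Rad a G := le_rad hab hG R fun x hx => hx.2
  rw [hR, le_bot_iff] at hRb
  have h4 : ∀ x ∈ D, x ^ b = 1 := by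
    intro x hx
    have : x ^ b ∈ R := ⟨pow_mem hx _, by rw [← pow_mul, mul_comm, hG]⟩
    rw [hRb] at this
    exact this
  exact le_rad hab.symm (fun x => by rw [mul_comm]; exact hG x) D h4

/-- iterated commutator subgroups -/
def dser (C : Subgroup G) : ℕ → Subgroup G
  | 0 => C
  | k + 1 => ⁅dser C k, dser C k⁆

theorem dser_normal (C : Subgroup G) [hC : C.Normal] (k : ℕ) : (dser C k).Normal := by
  induction k with
  | zero => exact hC
  | succ k ih =>
    have := ih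
    exact Subgroup.commutator_normal _ _

theorem dser_le (C : Subgroup G) (k : ℕ) : dser C k ≤ derivedSeries G k := by
  induction k with
  | zero => exact le_top
  | succ k ih =>
    rw [derivedSeries_succ]
    exact Subgroup.commutator_mono ih ih

theorem dser_le_self (C : Subgroup G) [C.Normal] (k : ℕ) : dser C k ≤ C := by
  induction k with
  | zero => exact le_refl _
  | succ k ih =>
    have := dser_normal C k
    exact le_trans (Subgroup.commutator_le_left _ _) ih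

/-- the Hall-Higman lemma for soluble groups of exponent `a * b` -/
theorem hall_higman {a b : ℕ} (hab : Nat.Coprime a b) (hG : ∀ x : G, x ^ (a * b) = 1)
    (hs : Group.IsSolvable G) (hR : Rad a G = ⊥) {x : G}
    (hx : ∀ e ∈ Rad b G, x * e = e * x) : x ∈ Rad b G := by
  let C : Subgroup G := Subgroup.centralizer (Rad b G : Set G)
  have hC : C.Normal := by
    refine ⟨fun y hy g => ?_⟩
    rw [Subgroup.mem_centralizer_iff] at hy ⊢
    intro e he
    have h1 : g⁻¹ * e * g ∈ Rad b G := by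
      have := (rad_normal (G := G) b).conj_mem e he g⁻¹
      rwa [inv_inv] at this
    have h2 := hy _ h1
    have h3 : e * (g * y * g⁻¹) = g * ((g⁻¹ * e * g) * y) * g⁻¹ := by group
    rw [h3, h2]
    group
  have hmem : ∀ y ∈ C, ∀ e ∈ Rad b G, y * e = e * y := by
    intro y hy e he
    exact ((Subgroup.mem_centralizer_iff.1 hy) e he).symm
  obtain ⟨n, hn⟩ := hs.solvable
  have hall : ∀ k, dser C k ≤ Rad b G → C ≤ Rad b G := by
    intro k
    induction k with
    | zero => exact fun h => h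
    | succ k ih =>
      intro h
      apply ih
      have := dser_normal C k
      exact hh_step hab hG hR (dser C k) (fun y hy => hmem y (dser_le_self C k hy)) h
  have h5 : C ≤ Rad b G := hall n (by
    refine le_trans (dser_le C n) ?_
    rw [hn]
    exact bot_le)
  refine h5 (Subgroup.mem_centralizer_iff.2 fun e he => (hx e he).symm)

end Pool.Agent.W629
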