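import Mathlib
import Pool.Agent.W629.Rad

set_option autoImplicit false

/-!
# Groups of exponent `2 m`, `m` odd, with finite soluble two-generator subgroups
-/

namespace Pool.Agent.W629

universe u

variable {G : Type u} [Group G]

theorem invol_mul_comm {x y : G} (hx : x ^ 2 = 1) (hy : y ^ 2 = 1) (hxy : (x * y) ^ 2 = 1) :
    x * y = y * x := by
  have hx' : x⁻¹ = x := by rw [inv_eq_iff_mul_eq_one, ← pow_two, hx]
  have hy' : y⁻¹ = y := by rw [inv_eq_iff_mul_eq_one, ← pow_two, hy]
  have h : (x * y)⁻¹ = x * y := by rw [inv_eq_iff_mul_eq_one, ← pow_two, hxy]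
  rw [mul_inv_rev, hx', hy'] at h
  exact h.symm

theorem pow_odd_of_sq {m : ℕ} (hm : Nat.Coprime m 2) {x : G} (hx : x ^ 2 = 1) : x ^ m = x := by
  have hmm : m % 2 = 1 := Nat.odd_iff.1 (Nat.coprime_two_right.1 hm)
  have h3 : m = 2 * (m / 2) + 1 := by omega
  rw [h3, pow_succ, pow_mul, hx, one_pow, one_mul]

theorem conj_of_eq {x y : G} (h : x = y⁻¹ * x * y) : y * x = x * y := by
  calc y * x = y * (y⁻¹ * x * y) := by rw [← h]
    _ = x * y := by group

/-- involutions of a soluble group of exponent `2 m` commute modulo `Rad m` -/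
theorem invol_mem_rad {m : ℕ} (hm : Nat.Coprime m 2) (hG : ∀ x : G, x ^ (m * 2) = 1)
    (hs : Group.IsSolvable G) (hR : Rad m G = ⊥) {x : G} (hx : x ^ 2 = 1) : x ∈ Rad 2 G := by
  refine hall_higman hm hG hs hR fun e he => ?_
  exact (invol_mul_comm he.1 hx (rad_mul he hx)).symm

theorem sq_mem_rad {m : ℕ} (hm : Nat.Coprime m 2) (hG : ∀ x : G, x ^ (m * 2) = 1)
    (hs : Group.IsSolvable G) {x y : G} (hx : x ^ 2 = 1) (hy : y ^ 2 = 1) :
    (x * y) ^ 2 ∈ Rad m G := by
  have hsQ : Group.IsSolvable (G ⧸ Rad m G) :=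
    Group.isSolvable_of_surjective (QuotientGroup.mk'_surjective (Rad m G))
  have hex := exp_quot hG (Rad m G)
  have hRQ := rad_quot hm hG
  have h1 : (x : G ⧸ Rad m G) ∈ Rad 2 (G ⧸ Rad m G) :=
    invol_mem_rad hm hex hsQ hRQ (by rw [← QuotientGroup.mk_pow, hx]; rfl)
  have h2 : (y : G ⧸ Rad m G) ∈ Rad 2 (G ⧸ Rad m G) :=
    invol_mem_rad hm hex hsQ hRQ (by rw [← QuotientGroup.mk_pow, hy]; rfl)
  have h3 := (mul_mem h1 h2).1
  rw [← QuotientGroup.mk_mul, ← QuotientGroup.mk_pow, QuotientGroup.eq_one_iff] at h3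
  exact h3

/-- an element of order prime to `2` outside `Rad m` is detected by an involution -/
theorem exists_invol {m : ℕ} (hm : Nat.Coprime m 2) (hG : ∀ x : G, x ^ (m * 2) = 1)
    (hs : Group.IsSolvable G) {u : G} (hu : u ^ m = 1) (hu' : u ∉ Rad m G) :
    ∃ t : G, t ^ 2 = 1 ∧ (t * (u⁻¹ * t * u)) ^ m ≠ 1 := by
  have hsQ : Group.IsSolvable (G ⧸ Rad m G) :=
    Group.isSolvable_of_surjective (QuotientGroup.mk'_surjective (Rad m G))
  have hex := exp_quot hG (Rad m G)
  have hRQ := rad_quot hm hG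
  have hu1 : (u : G ⧸ Rad m G) ≠ 1 := by
    intro h
    exact hu' ((QuotientGroup.eq_one_iff u).1 h)
  have hum : (u : G ⧸ Rad m G) ^ m = 1 := by rw [← QuotientGroup.mk_pow, hu]; rfl
  have h1 : ∃ e ∈ Rad 2 (G ⧸ Rad m G), (u : G ⧸ Rad m G) * e ≠ e * u := by
    by_contra hcon
    push Not at hcon
    have h2 := hall_higman hm hex hsQ hRQ hcon
    exact hu1 (eq_one_of_coprime hm hum h2.1)
  obtain ⟨e, he, hne⟩ := h1
  obtain ⟨e, rfl⟩ := QuotientGroup.mk_surjective e
  refine ⟨e ^ m, by rw [← pow_mul, hG], fun hcon => hne ?_⟩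
  have hmodd : ((e : G ⧸ Rad m G)) ^ m = e := pow_odd_of_sq hm he.1
  have h4 : ((e ^ m * (u⁻¹ * e ^ m * u) : G) : G ⧸ Rad m G) = e * (u⁻¹ * e * u) := by
    simp only [QuotientGroup.mk_mul, QuotientGroup.mk_pow, QuotientGroup.mk_inv, hmodd]
  have h5 : (u⁻¹ * e * u : G ⧸ Rad m G) ∈ Rad 2 (G ⧸ Rad m G) := by
    have := (rad_normal (G := G ⧸ Rad m G) 2).conj_mem _ he (u : G ⧸ Rad m G)⁻¹
    rwa [inv_inv] at this
  have h6 : (e * (u⁻¹ * e * u) : G ⧸ Rad m G) = 1 := by
    refine eq_one_of_coprime hm ?_ (mul_mem he h5).1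
    rw [← h4, ← QuotientGroup.mk_pow, hcon]
    rfl
  have he' : (e : G ⧸ Rad m G)⁻¹ = e := by
    rw [inv_eq_iff_mul_eq_one, ← pow_two, he.1]
  rw [mul_eq_one_iff_inv_eq, he'] at h6
  exact conj_of_eq h6

/-- the subgroup generated by three involutions -/
theorem three_invol (a b t : G) (ha : a ^ 2 = 1) (hb : b ^ 2 = 1) (ht : t ^ 2 = 1)
    (hf : Finite (Subgroup.closure {a * b, b * t}))
    (hs : Group.IsSolvable (Subgroup.closure {a * b, b * t})) :
    Finite (Subgroup.closure {a, b, t}) ∧ Group.IsSolvable (Subgroup.closure {a, b, t}) := by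
  set H : Subgroup G := Subgroup.closure {a * b, b * t} with hH
  set K : Subgroup G := Subgroup.closure {a, b, t} with hK
  have ha' : a⁻¹ = a := by rw [inv_eq_iff_mul_eq_one, ← pow_two, ha]
  have hb' : b⁻¹ = b := by rw [inv_eq_iff_mul_eq_one, ← pow_two, hb]
  have ht' : t⁻¹ = t := by rw [inv_eq_iff_mul_eq_one, ← pow_two, ht]
  have h1 : a * b ∈ H := Subgroup.subset_closure (by simp)
  have h2 : b * t ∈ H := Subgroup.subset_closure (by simp)
  have haK : a ∈ K := Subgroup.subset_closure (by simp)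
  have hbK : b ∈ K := Subgroup.subset_closure (by simp)
  have htK : t ∈ K := Subgroup.subset_closure (by simp)
  have haa : a * a = 1 := by rw [← pow_two, ha]
  have hbb : b * b = 1 := by rw [← pow_two, hb]
  have htt : t * t = 1 := by rw [← pow_two, ht]
  -- `a` normalises `H`
  have hc1 : a * (a * b) * a⁻¹ ∈ H := by
    have : a * (a * b) * a⁻¹ = (a * b)⁻¹ := by
      rw [mul_inv_rev, hb', ← mul_assoc, haa, one_mul]
    rw [this]
    exact inv_mem h1
  have hc2 : a * (b * t) * a⁻¹ ∈ H := by
    have : a * (b * t) * a⁻¹ = (a * b) * ((a * b) * (b * t))⁻¹ := by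
      have e : (a * b) * (b * t) = a * t := by
        rw [mul_assoc, ← mul_assoc b b t, hbb, one_mul]
      rw [e, mul_inv_rev, ht']
      simp only [mul_assoc]
    rw [this]
    exact mul_mem h1 (inv_mem (mul_mem h1 h2))
  have hconj : ∀ x ∈ H, a * x * a⁻¹ ∈ H := by
    intro x hx
    induction hx using Subgroup.closure_induction with
    | mem x hx =>
      rcases hx with rfl | hx
      · exact hc1
      · rw [Set.mem_singleton_iff.1 hx]
        exact hc2
    | one => rw [mul_one, mul_inv_cancel]; exact one_mem _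
    | mul x y _ _ hx hy =>
      have e : a * (x * y) * a⁻¹ = (a * x * a⁻¹) * (a * y * a⁻¹) := by group
      rw [e]
      exact mul_mem hx hy
    | inv x _ hx =>
      have e : a * x⁻¹ * a⁻¹ = (a * x * a⁻¹)⁻¹ := by group
      rw [e]
      exact inv_mem hx
  have hconj' : ∀ x ∈ H, a * x * a ∈ H := by
    intro x hx
    have := hconj x hx
    rwa [ha'] at this
  -- `K = H ∪ a H`
  have hcov : ∀ x ∈ K, x ∈ H ∨ a * x ∈ H := by
    intro x hx
    induction hx using Subgroup.closure_induction with
    | mem x hx =>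
      right
      rcases hx with rfl | rfl | hx
      · rw [haa]; exact one_mem _
      · exact h1
      · rw [Set.mem_singleton_iff.1 hx]
        have e : a * t = (a * b) * (b * t) := by
          rw [mul_assoc, ← mul_assoc b b t, hbb, one_mul]
        rw [e]
        exact mul_mem h1 h2
    | one => left; exact one_mem _
    | mul x y _ _ hx hy =>
      rcases hx with hx | hx <;> rcases hy with hy | hy
      · left; exact mul_mem hx hy
      · right
        have e : a * (x * y) = (a * x * a) * (a * y) := by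
          have : (a * x * a) * (a * y) = a * x * (a * a) * y := by group
          rw [this, haa]
          group
        rw [e]
        exact mul_mem (hconj' x hx) hy
      · right
        rw [← mul_assoc]
        exact mul_mem hx hy
      · left
        have e : x * y = (a * (a * x) * a) * (a * y) := by
          have : (a * (a * x) * a) * (a * y) = (a * a) * x * (a * a) * y := by group
          rw [this, haa]
          group
        rw [e]
        exact mul_mem (hconj' _ hx) hy
    | inv x _ hx =>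
      rcases hx with hx | hx
      · left; exact inv_mem hx
      · right
        have e : a * x⁻¹ = a * (a * x)⁻¹ * a := by
          rw [mul_inv_rev, ha', mul_assoc, mul_assoc, haa, mul_one]
        rw [e]
        exact hconj' _ (inv_mem hx)
  have hHK : H ≤ K := by
    rw [hH, Subgroup.closure_le]
    rintro x (rfl | hx)
    · exact mul_mem haK hbK
    · rw [Set.mem_singleton_iff.1 hx]
      exact mul_mem hbK htK
  constructor
  · -- finiteness
    have hfin : (H : Set G).Finite := Set.toFinite _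
    have hsub : (K : Set G) ⊆ (H : Set G) ∪ (fun x => a * x) '' (H : Set G) := by
      intro x hx
      rcases hcov x hx with h | h
      · left; exact h
      · right
        exact ⟨a * x, h, by simp only; rw [← mul_assoc, haa, one_mul]⟩
    exact (Set.Finite.subset (hfin.union (hfin.image _)) hsub).to_subtype
  · -- solubility
    let N : Subgroup K := H.subgroupOf K
    have hN : N.Normal := by
      refine ⟨fun x hx g => ?_⟩
      have hx' : (x : G) ∈ H := hx
      change (g : G) * x * (g : G)⁻¹ ∈ H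
      rcases hcov g g.2 with h | h
      · exact mul_mem (mul_mem h hx') (inv_mem h)
      · have e : (g : G) * x * (g : G)⁻¹ = a * ((a * g) * x * (a * g)⁻¹) * a := by
          rw [mul_inv_rev, ha']
          have : a * (a * ↑g * ↑x * ((↑g)⁻¹ * a)) * a =
              (a * a) * ((g : G) * x * (g : G)⁻¹) * (a * a) := by group
          rw [this, haa]
          group
        rw [e]
        exact hconj' _ (mul_mem (mul_mem h hx') (inv_mem h))
    have hNs : Group.IsSolvable N := by
      have e : N ≃* H := Subgroup.subgroupOfEquivOfLe hHK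
      exact Group.isSolvable_of_surjective (f := e.symm.toMonoidHom) e.symm.surjective
    have hQs : Group.IsSolvable (K ⧸ N) := by
      refine Group.isSolvable_of_comm fun x y => ?_
      obtain ⟨x, rfl⟩ := QuotientGroup.mk_surjective x
      obtain ⟨y, rfl⟩ := QuotientGroup.mk_surjective y
      have hA : ∀ z : K, (z : K ⧸ N) = 1 ∨ (z : K ⧸ N) = ((⟨a, haK⟩ : K) : K ⧸ N) := by
        intro z
        rcases hcov z z.2 with h | h
        · left; exact (QuotientGroup.eq_one_iff z).2 h
        · right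
          refine (QuotientGroup.eq.2 ?_).symm
          change (a : G)⁻¹ * z ∈ H
          rw [ha']
          exact h
      rcases hA x with h | h <;> rcases hA y with h' | h' <;> rw [h, h'] <;> simp
    exact Group.isSolvable_of_ker_le_range N.subtype (QuotientGroup.mk' N) (by
      rw [QuotientGroup.ker_mk', Subgroup.range_subtype])

/-- Hypothesis: `⟨x, y⟩` is finite and soluble whenever `x ^ m = y ^ m = 1`, and `⟨a, b, t⟩` is finite
and soluble whenever `a ^ 2 = b ^ 2 = t ^ 2 = 1` -/
structure Hyp (m : ℕ) (G : Type u) [Group G] : Prop where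
  two : ∀ x y : G, x ^ m = 1 → y ^ m = 1 → Group.IsSolvable (Subgroup.closure {x, y})
  three : ∀ a b t : G, a ^ 2 = 1 → b ^ 2 = 1 → t ^ 2 = 1 →
    Group.IsSolvable (Subgroup.closure {a, b, t})

/-- the squares of products of two involutions lie in `Rad m` -/
theorem sq_mem_rad_of_hyp {m : ℕ} (hm : Nat.Coprime m 2) (hG : ∀ x : G, x ^ (m * 2) = 1)
    (hB : Hyp m G) {a b : G} (ha : a ^ 2 = 1) (hb : b ^ 2 = 1) : (a * b) ^ 2 ∈ Rad m G := by
  by_contra hcon
  have hum : ((a * b) ^ 2) ^ m = 1 := by rw [← pow_mul, mul_comm, hG]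
  obtain ⟨y, hy, hy'⟩ : ∃ y : G, y ^ m = 1 ∧ ((a * b) ^ 2 * y) ^ m ≠ 1 := by
    by_contra h
    push Not at h
    exact hcon ⟨hum, h⟩
  set u : G := (a * b) ^ 2 with hu
  -- an involution `t` in `⟨u, y⟩`
  obtain ⟨t, ht, ht'⟩ : ∃ t : G, t ^ 2 = 1 ∧ (t * (u⁻¹ * t * u)) ^ m ≠ 1 := by
    set K : Subgroup G := Subgroup.closure {u, y} with hK
    have huK : u ∈ K := Subgroup.subset_closure (by simp)
    have hyK : y ∈ K := Subgroup.subset_closure (by simp)
    obtain ⟨t, ht, ht'⟩ := exists_invol (G := K) hm (exp_sub hG K) (hB.two u y hum hy)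
      (u := ⟨u, huK⟩) (Subtype.ext hum) (by
        rintro ⟨-, h⟩
        apply hy'
        have := h ⟨y, hyK⟩ (Subtype.ext hy)
        exact congrArg Subtype.val this)
    refine ⟨t, by simpa using congrArg Subtype.val ht, fun h => ht' (Subtype.ext ?_)⟩
    simpa using h
  -- the subgroup `⟨a, b, t⟩`
  have h3 := hB.three a b t ha hb ht
  set K : Subgroup G := Subgroup.closure {a, b, t} with hK
  have haK : a ∈ K := Subgroup.subset_closure (by simp)
  have hbK : b ∈ K := Subgroup.subset_closure (by simp)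
  have htK : t ∈ K := Subgroup.subset_closure (by simp)
  have h4 : ((⟨a, haK⟩ : K) * ⟨b, hbK⟩) ^ 2 ∈ Rad m K :=
    sq_mem_rad hm (exp_sub hG K) h3 (Subtype.ext ha) (Subtype.ext hb)
  have h5 : (⟨t, htK⟩ : K) * ((((⟨a, haK⟩ : K) * ⟨b, hbK⟩) ^ 2)⁻¹ * ⟨t, htK⟩ *
      ((⟨a, haK⟩ : K) * ⟨b, hbK⟩) ^ 2) ∈ Rad m K := by
    have e : (⟨t, htK⟩ : K)⁻¹ = ⟨t, htK⟩ := by
      rw [inv_eq_iff_mul_eq_one]
      apply Subtype.ext
      change t * t = 1
      rw [← pow_two, ht]
    have h6 := (rad_normal (G := K) m).conj_mem _ (inv_mem h4) ⟨t, htK⟩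
    rw [e] at h6
    have h7 := mul_mem h6 h4
    simpa only [mul_assoc] using h7
  apply ht'
  have := congrArg Subtype.val h5.1
  simpa using this

end Pool.Agent.W629
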