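import Mathlib
import Pool.Agent.W629.TwiceOdd
import Pool.Agent.H32BU.All

set_option autoImplicit false

/-!
# Local finiteness of groups of exponent `2 m`, `m` odd
-/

namespace Pool.Agent.W629

open Pool.Agent.H32BU

theorem lf_twice {m : ℕ} (hm : Nat.Coprime m 2) (hL : LocFin m) (G : Type) [Group G]
    (hG : ∀ x : G, x ^ (m * 2) = 1) (hB : Hyp m G) : LF G := by
  have hL2 : LocFin 2 := x_LFD.1 4 2 (by norm_num) x_L34.2
  have h1 : LF (Rad m G) := hL (Rad m G) fun x => Subtype.ext (by simpa using x.2.1)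
  refine x_SCH G (Rad m G) h1 ?_
  -- involutions of the quotient commute
  have hcomm : ∀ x y : G ⧸ Rad m G, x ^ 2 = 1 → y ^ 2 = 1 → x * y = y * x := by
    intro x y hx hy
    obtain ⟨x, rfl⟩ := QuotientGroup.mk_surjective x
    obtain ⟨y, rfl⟩ := QuotientGroup.mk_surjective y
    have h2 := sq_mem_rad_of_hyp hm hG hB (a := x ^ m) (b := y ^ m)
      (by rw [← pow_mul, hG]) (by rw [← pow_mul, hG])
    have h3 : ((x : G ⧸ Rad m G) * y) ^ 2 = 1 := by
      rw [← QuotientGroup.eq_one_iff] at h2
      rw [QuotientGroup.mk_pow, QuotientGroup.mk_mul, QuotientGroup.mk_pow,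
        QuotientGroup.mk_pow] at h2
      rwa [pow_odd_of_sq hm hx, pow_odd_of_sq hm hy] at h2
    exact invol_mul_comm hx hy h3
  let E : Subgroup (G ⧸ Rad m G) :=
    { carrier := {x | x ^ 2 = 1}
      one_mem' := one_pow _
      mul_mem' := by
        intro x y hx hy
        have hc : Commute x y := hcomm x y hx hy
        change (x * y) ^ 2 = 1
        rw [hc.mul_pow, hx, hy, one_mul]
      inv_mem' := by
        intro x hx
        change x⁻¹ ^ 2 = 1
        rw [inv_pow, hx, inv_one] }
  have hE : E.Normal := ⟨fun x hx g => conj_pow_one hx⟩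
  have h4 : LF E := hL2 E fun x => Subtype.ext (by
    rw [Subgroup.coe_pow, Subgroup.coe_one]
    exact x.2)
  refine x_SCH _ E h4 (hL _ fun x => ?_)
  obtain ⟨x, rfl⟩ := QuotientGroup.mk_surjective x
  rw [← QuotientGroup.mk_pow, QuotientGroup.eq_one_iff]
  change (x ^ m) ^ 2 = 1
  rw [← pow_mul]
  exact exp_quot hG _ x

/-- finite two-generator subgroups imply finite subgroups generated by three involutions -/
theorem hyp_of_two {m : ℕ} {G : Type} [Group G]
    (h : ∀ x y : G, Finite (Subgroup.closure {x, y}) ∧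
      Group.IsSolvable (Subgroup.closure {x, y})) : Hyp m G :=
  ⟨fun x y _ _ => (h x y).2, fun a b t ha hb ht =>
    (three_invol a b t ha hb ht (h _ _).1 (h _ _).2).2⟩

/-- homomorphism from the free Burnside group of rank two onto a two-generator subgroup -/
theorem bu2 {n : ℕ} {G : Type} [Group G] (hG : ∀ x : G, x ^ n = 1) (a b : G) :
    ∃ f : Bu 2 n →* G, f.range = Subgroup.closure {a, b} := by
  let f0 : FreeGroup (Fin 2) →* G := FreeGroup.lift ![a, b]
  have hker : Subgroup.normalClosure (Set.range fun w : FreeGroup (Fin 2) => w ^ n) ≤ f0.ker := by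
    apply Subgroup.normalClosure_le_normal
    rintro _ ⟨w, rfl⟩
    rw [SetLike.mem_coe, MonoidHom.mem_ker, map_pow, hG]
  refine ⟨QuotientGroup.lift _ f0 (fun w hw => hker hw), ?_⟩
  have e1 : (QuotientGroup.lift _ f0 (fun w hw => hker hw) : Bu 2 n →* G).range = f0.range := by
    ext g
    constructor
    · rintro ⟨w, rfl⟩
      obtain ⟨w, rfl⟩ := QuotientGroup.mk_surjective w
      exact ⟨w, rfl⟩
    · rintro ⟨w, rfl⟩
      exact ⟨(w : Bu 2 n), rfl⟩
  rw [e1]
  have e2 : f0.range = Subgroup.closure (Set.range ![a, b]) := FreeGroup.range_lift_eq_closure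
  rw [e2]
  congr 1
  ext g
  simp only [Set.mem_range, Fin.exists_fin_succ, Set.mem_insert_iff, Set.mem_singleton_iff]
  simp [eq_comm]

theorem two_of_bu {n : ℕ} (hf : Finite (Bu 2 n)) (hs : Group.IsSolvable (Bu 2 n)) {G : Type}
    [Group G] (hG : ∀ x : G, x ^ n = 1) (x y : G) :
    Finite (Subgroup.closure {x, y}) ∧ Group.IsSolvable (Subgroup.closure {x, y}) := by
  obtain ⟨f, hfr⟩ := bu2 hG x y
  rw [← hfr]
  exact ⟨Finite.of_surjective f.rangeRestrict f.rangeRestrict_surjective,
    Group.isSolvable_of_surjective f.rangeRestrict_surjective⟩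

theorem solv_of_exp {G : Type} [Group G] [Finite G] (p q a b : ℕ) (hp : p.Prime) (hq : q.Prime)
    (hG : ∀ x : G, x ^ (p ^ a * q ^ b) = 1) : Group.IsSolvable G := by
  obtain ⟨c, d, hcd⟩ := x_CRD G p q a b hp hq hG
  exact x_BUR G p q c d hp hq hcd

theorem locfin_twice {m : ℕ} (hm : Nat.Coprime m 2) (hL : LocFin m) (hf : Finite (Bu 2 (m * 2)))
    (hs : Group.IsSolvable (Bu 2 (m * 2))) : LocFin (m * 2) :=
  fun G _ hG => lf_twice hm hL G hG (hyp_of_two fun x y => two_of_bu hf hs hG x y)

theorem locfin_twice_pp {p k : ℕ} (hp : p.Prime) (hp2 : p ≠ 2) (hL : LocFin (p ^ k))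
    (hf : Finite (Bu 2 (2 * p ^ k))) : LocFin (2 * p ^ k) := by
  have hm : Nat.Coprime (p ^ k) 2 :=
    Nat.Coprime.pow_left _ ((Nat.coprime_primes hp Nat.prime_two).2 hp2)
  have hs : Group.IsSolvable (Bu 2 (2 * p ^ k)) :=
    solv_of_exp 2 p 1 k Nat.prime_two hp (fun x => by rw [pow_one]; exact x_LFD.2.2.2 2 _ x)
  rw [mul_comm] at hf hs ⊢
  exact locfin_twice hm hL hf hs

/-- transfer from `Type` to all universes -/
theorem finite_closure_u {G : Type*} [Group G] (S : Set G) (hS : S.Finite)
    (h : ∀ (Q : Type) [Group Q] (f : Q →* G), Function.Injective f → LF Q) :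
    Finite (Subgroup.closure S) := by
  classical
  have := hS.to_subtype
  obtain ⟨k, ⟨e⟩⟩ := Finite.exists_equiv_fin S
  let f0 : FreeGroup (Fin k) →* G := FreeGroup.lift fun i => (e.symm i : G)
  let Q : Type := FreeGroup (Fin k) ⧸ f0.ker
  let f : Q →* G := QuotientGroup.kerLift f0
  have hf : Function.Injective f := QuotientGroup.kerLift_injective f0
  have hLF : LF Q := h Q f hf
  have hgen : Subgroup.closure ((Finset.univ.image fun i : Fin k =>
      (QuotientGroup.mk (FreeGroup.of i) : Q) : Finset Q) : Set Q) = ⊤ := by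
    rw [eq_top_iff]
    rintro x -
    obtain ⟨w, rfl⟩ := QuotientGroup.mk_surjective x
    induction w using FreeGroup.induction_on with
    | C1 => exact one_mem _
    | of i => exact Subgroup.subset_closure (by simp)
    | inv_of i hi =>
      have := inv_mem hi
      exact this
    | mul a b ha hb =>
      have := mul_mem ha hb
      exact this
  have hfinQ : Finite Q := by
    have h := hLF (Finset.univ.image fun i : Fin k => (QuotientGroup.mk (FreeGroup.of i) : Q))
    rw [hgen] at h
    exact Finite.of_equiv _ (Subgroup.topEquiv (G := Q)).toEquiv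
  have hr : Subgroup.closure S ≤ f.range := by
    rw [Subgroup.closure_le]
    intro s hs
    refine ⟨QuotientGroup.mk (FreeGroup.of (e ⟨s, hs⟩)), ?_⟩
    change f0 (FreeGroup.of (e ⟨s, hs⟩)) = s
    simp [f0]
  have : Finite f.range := Finite.of_surjective f.rangeRestrict f.rangeRestrict_surjective
  exact Finite.of_injective (Subgroup.inclusion hr) (Subgroup.inclusion_injective hr)

/-- image of a generated subgroup under an injective homomorphism -/
theorem finite_of_image {Q G : Type*} [Group Q] [Group G] (f : Q →* G)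
    (hf : Function.Injective f) (T : Set Q) (h : Finite (Subgroup.closure (f '' T))) :
    Finite (Subgroup.closure T) := by
  rw [← MonoidHom.map_closure] at h
  exact Finite.of_equiv _ ((Subgroup.closure T).equivMapOfInjective f hf).symm.toEquiv

universe u

/-- the group level statement in all universes -/
theorem group_twice_pp {p k : ℕ} (hp : p.Prime) (hp2 : p ≠ 2) (hL : InL.{u} (p ^ k))
    (G : Type u) [Group G] (hG : ∀ x : G, x ^ (2 * p ^ k) = 1)
    (h2 : ∀ x y : G, x ^ p ^ k = 1 → y ^ p ^ k = 1 → Finite (Subgroup.closure {x, y}))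
    (h3 : ∀ a b t : G, a ^ 2 = 1 → b ^ 2 = 1 → t ^ 2 = 1 → Finite (Subgroup.closure {a, b, t}))
    (S : Set G) (hS : S.Finite) : Finite (Subgroup.closure S) := by
  have hm : Nat.Coprime (p ^ k) 2 :=
    Nat.Coprime.pow_left _ ((Nat.coprime_primes hp Nat.prime_two).2 hp2)
  refine finite_closure_u S hS fun Q _ f hf => ?_
  have hQ : ∀ x : Q, x ^ (2 * p ^ k) = 1 := fun x => hf (by rw [map_pow, map_one]; exact hG _)
  have hsol : ∀ K : Subgroup Q, Finite K → Group.IsSolvable K := fun K hK =>
    solv_of_exp 2 p 1 k Nat.prime_two hp (fun x => by rw [pow_one]; exact exp_sub hQ K x)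
  refine lf_twice hm ((inL_iff x_LFD _).1 hL) Q (fun x => by rw [mul_comm]; exact hQ x) ⟨?_, ?_⟩
  · intro x y hx hy
    refine hsol _ (finite_of_image f hf _ ?_)
    rw [Set.image_pair]
    exact h2 _ _ (by rw [← map_pow, hx, map_one]) (by rw [← map_pow, hy, map_one])
  · intro a b t ha hb ht
    refine hsol _ (finite_of_image f hf _ ?_)
    rw [Set.image_insert_eq, Set.image_pair]
    exact h3 _ _ _ (by rw [← map_pow, ha, map_one]) (by rw [← map_pow, hb, map_one])
      (by rw [← map_pow, ht, map_one])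

end Pool.Agent.W629
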